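import Pool.Agent.H6.TP.Targets

/-! row CSI of the board top_modules (MP_c59857_nt): the mean of the modulus of the cosine -/

set_option autoImplicit false

open Finset Pool.Agent.H6.N4D Pool.Agent.H6.TP

namespace Pool.Agent.H54.TP

theorem per_abs_cos : Function.Periodic (fun x : ℝ => |Real.cos x|) Real.pi := by
  intro x
  show |Real.cos (x + Real.pi)| = |Real.cos x|
  rw [Real.cos_add_pi, abs_neg]

theorem half_int : ∫ x in (-(Real.pi / 2))..(-(Real.pi / 2) + Real.pi), |Real.cos x| = 2 := by
  have h1 : -(Real.pi / 2) + Real.pi = Real.pi / 2 := by ring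
  rw [h1]
  have h2 : ∫ x in (-(Real.pi / 2))..(Real.pi / 2), |Real.cos x| =
      ∫ x in (-(Real.pi / 2))..(Real.pi / 2), Real.cos x := by
    apply intervalIntegral.integral_congr
    intro x hx
    rw [Set.uIcc_of_le (by linarith [Real.pi_pos])] at hx
    exact abs_of_nonneg (Real.cos_nonneg_of_neg_pi_div_two_le_of_le hx.1 hx.2)
  rw [h2, integral_cos, Real.sin_neg, Real.sin_pi_div_two]
  norm_num

theorem pf_CSI : T_CSI := by
  unfold T_CSI
  have hp := Real.pi_pos
  have h1 := intervalIntegral.integral_comp_mul_left (fun x : ℝ => |Real.cos x|)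
    (a := 0) (b := 1) (c := 2 * Real.pi) (by positivity)
  rw [h1, mul_zero, mul_one]
  have hint : ∀ a b : ℝ, IntervalIntegrable (fun x : ℝ => |Real.cos x|) MeasureTheory.volume a b :=
    fun a b => (Real.continuous_cos.abs).intervalIntegrable a b
  have h2 : ∫ x in (0 : ℝ)..(2 * Real.pi), |Real.cos x| = 4 := by
    have h3 : ∫ x in (0 : ℝ)..(2 * Real.pi), |Real.cos x| =
        (∫ x in (0 : ℝ)..(0 + Real.pi), |Real.cos x|) +
          ∫ x in Real.pi..(Real.pi + Real.pi), |Real.cos x| := by
      rw [zero_add, ← two_mul]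
      exact (intervalIntegral.integral_add_adjacent_intervals (hint _ _) (hint _ _)).symm
    rw [h3, per_abs_cos.intervalIntegral_add_eq 0 (-(Real.pi / 2)),
      per_abs_cos.intervalIntegral_add_eq Real.pi (-(Real.pi / 2)), half_int]
    norm_num
  rw [h2, smul_eq_mul]
  field_simp
  norm_num

end Pool.Agent.H54.TP
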